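import Pool.Agent.Y53.DG.Stm

/-!
Project DG, job DG-ALL: gluing, swapping, all blocks at once.
-/

set_option autoImplicit false

namespace Pool.Agent.Y490.DG
open Finset Equiv Equiv.Perm Pool.Agent.H84R2.Bab Pool.Agent.Y53.DG

/-- a permutation which fixes all points outside `A` maps `A` to `A` -/
theorem maps_in {Ω : Type} {A : Finset Ω} {h : Perm Ω} (hh : ∀ x, x ∉ A → h x = x) {x : Ω}
    (hx : x ∈ A) : h x ∈ A := by
  by_contra hc
  have h1 := hh _ hc
  have h2 := h.injective h1
  rw [h2] at hc
  exact hc hx

theorem glue : S_GLUE := by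
  intro Ω _ _ ι _ _ R hR h hh
  have key : ∀ s : Finset ι, ∃ H : Perm Ω, (∀ i ∈ s, ∀ x ∈ R i, H x = h i x) ∧
      ∀ x, (∀ i ∈ s, x ∉ R i) → H x = x := by
    intro s
    induction s using Finset.induction_on with
    | empty => exact ⟨1, by simp, by simp⟩
    | insert j s hj ih =>
      obtain ⟨H, h1, h2⟩ := ih
      refine ⟨H * h j, ?_, ?_⟩
      · intro i hi x hx
        rw [Perm.mul_apply]
        rcases Finset.mem_insert.1 hi with rfl | hi
        · refine h2 _ fun k hk hc => ?_
          have hne : i ≠ k := fun e => hj (e ▸ hk)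
          exact (Finset.disjoint_left.1 (hR i k hne)) (maps_in (hh i) hx) hc
        · have hne : i ≠ j := fun e => hj (e ▸ hi)
          rw [hh j x ((Finset.disjoint_left.1 (hR i j hne)) hx)]
          exact h1 i hi x hx
      · intro x hx
        rw [Perm.mul_apply, hh j x (hx j (Finset.mem_insert_self _ _))]
        exact h2 x fun i hi => hx i (Finset.mem_insert_of_mem hi)
  obtain ⟨H, h1, h2⟩ := key Finset.univ
  exact ⟨H, fun i => h1 i (Finset.mem_univ _), fun x hx => h2 x fun i _ => hx i⟩

theorem swap_aux {Ω : Type} [DecidableEq Ω] : ∀ (P F : Finset Ω), Disjoint P F →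
    P.card ≤ F.card → ∃ h : Perm Ω, (∀ x, x ∉ P ∪ F → h x = x) ∧ ∀ x ∈ P, h x ∈ F := by
  intro P
  induction P using Finset.induction_on with
  | empty => intro F _ _; exact ⟨1, by simp, by simp⟩
  | insert a P ha ih =>
    intro F hd hc
    rw [Finset.card_insert_of_notMem ha] at hc
    obtain ⟨f, hf⟩ : F.Nonempty := by
      rw [← Finset.card_pos]; omega
    have haF : a ∉ F := Finset.disjoint_left.1 hd (Finset.mem_insert_self _ _)
    have hd' : Disjoint P (F.erase f) := by
      refine Finset.disjoint_left.2 fun x hx hx' => ?_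
      exact Finset.disjoint_left.1 hd (Finset.mem_insert_of_mem hx) (Finset.mem_of_mem_erase hx')
    obtain ⟨h, h1, h2⟩ := ih (F.erase f) hd' (by rw [Finset.card_erase_of_mem hf]; omega)
    refine ⟨Equiv.swap a f * h, ?_, ?_⟩
    · intro x hx
      have hx1 : x ∉ P ∪ F.erase f := by
        intro hc
        rcases Finset.mem_union.1 hc with hc | hc
        · exact hx (Finset.mem_union_left _ (Finset.mem_insert_of_mem hc))
        · exact hx (Finset.mem_union_right _ (Finset.mem_of_mem_erase hc))
      rw [Perm.mul_apply, h1 x hx1]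
      refine Equiv.swap_apply_of_ne_of_ne ?_ ?_
      · rintro rfl
        exact hx (Finset.mem_union_left _ (Finset.mem_insert_self _ _))
      · rintro rfl
        exact hx (Finset.mem_union_right _ hf)
    · intro x hx
      rw [Perm.mul_apply]
      rcases Finset.mem_insert.1 hx with rfl | hx
      · have hx1 : x ∉ P ∪ F.erase f := by
          intro hc
          rcases Finset.mem_union.1 hc with hc | hc
          · exact ha hc
          · exact haF (Finset.mem_of_mem_erase hc)
        rw [h1 x hx1, Equiv.swap_apply_left]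
        exact hf
      · have h3 := h2 x hx
        have h4 : h x ≠ a := by
          intro e
          rw [e] at h3
          exact haF (Finset.mem_of_mem_erase h3)
        rw [Equiv.swap_apply_of_ne_of_ne h4 (Finset.ne_of_mem_erase h3)]
        exact Finset.mem_of_mem_erase h3

theorem swap : S_SWAP := by
  intro Ω _ _ P F hd hc
  obtain ⟨h, h1, h2⟩ := swap_aux P F hd (by omega)
  obtain ⟨f1, hf1, f2, hf2, hne⟩ := Finset.one_lt_card.1 (show 1 < F.card by omega)
  rcases Int.units_eq_one_or (sign h) with hs | hs
  · exact ⟨h, ⟨hs, h1⟩, h2⟩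
  · refine ⟨h * Equiv.swap f1 f2, ⟨?_, ?_⟩, ?_⟩
    · rw [Perm.sign_mul, hs, Perm.sign_swap hne]; rfl
    · intro x hx
      rw [Perm.mul_apply, Equiv.swap_apply_of_ne_of_ne, h1 x hx]
      · rintro rfl; exact hx (Finset.mem_union_right _ hf1)
      · rintro rfl; exact hx (Finset.mem_union_right _ hf2)
    · intro x hx
      have hxF : x ∉ F := Finset.disjoint_left.1 hd hx
      rw [Perm.mul_apply, Equiv.swap_apply_of_ne_of_ne]
      · exact h2 x hx
      · rintro rfl; exact hxF hf1
      · rintro rfl; exact hxF hf2

theorem all (hB : S_BLOCK) : S_ALL := by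
  intro Ω _ _ S Γ ℓ hΓ hS hcard ι _ _ R hR hsum hne hgood h hh H hH1 hH2
  obtain ⟨E, hE, hBl⟩ := hB Ω S Γ ℓ hΓ hS hcard ι R hR hsum hne
  have key : ∀ E' : Finset ι, E' ⊆ E → ∀ K : Perm Ω,
      (∀ i, (i ∉ E ∨ i ∈ E') → ∀ x ∈ R i, K x = h i x) →
      (∀ x, (∀ i, (i ∉ E ∨ i ∈ E') → x ∉ R i) → K x = x) → Len S (4 + 4 * E'.card) K := by
    intro E'
    induction E' using Finset.induction_on with
    | empty =>
      intro _ K h1 h2
      have := hBl h hh K (fun i hi => h1 i (Or.inl hi)) (fun x hx => h2 x fun i hi => by
        rcases hi with hi | hi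
        · exact hx i hi
        · simp at hi)
      simpa using this
    | insert j E' hj ih =>
      intro hsub K h1 h2
      have hjE : j ∈ E := hsub (Finset.mem_insert_self _ _)
      have hinv : ∀ x, x ∉ R j → (h j)⁻¹ x = x := by
        intro x hx
        rw [Perm.inv_eq_iff_eq]
        exact ((hh j).2 x hx).symm
      have h3 := ih (fun x hx => hsub (Finset.mem_insert_of_mem hx)) ((h j)⁻¹ * K) ?_ ?_
      · have h4 : K = h j * ((h j)⁻¹ * K) := by group
        rw [h4]
        refine ((hgood j (h j) (hh j)).mul h3).mono ?_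
        rw [Finset.card_insert_of_notMem hj]
        omega
      · intro i hi x hx
        have hne' : i ≠ j := by
          rintro rfl
          rcases hi with hi | hi
          · exact hi hjE
          · exact hj hi
        have h5 : K x = h i x := h1 i (by
          rcases hi with hi | hi
          · exact Or.inl hi
          · exact Or.inr (Finset.mem_insert_of_mem hi)) x hx
        rw [Perm.mul_apply, h5]
        exact hinv _ (Finset.disjoint_left.1 (hR i j hne') (maps_in (hh i).2 hx))
      · intro x hx
        rw [Perm.mul_apply]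
        by_cases hxj : x ∈ R j
        · rw [h1 j (Or.inr (Finset.mem_insert_self _ _)) x hxj]
          simp
        · rw [h2 x, hinv x hxj]
          intro i hi
          rcases hi with hi | hi
          · exact hx i (Or.inl hi)
          · rcases Finset.mem_insert.1 hi with rfl | hi
            · exact hxj
            · exact hx i (Or.inr hi)
  refine (key E (fun x hx => hx) H (fun i _ => hH1 i) ?_).mono (by omega)
  intro x hx
  refine hH2 x fun i => ?_
  by_cases hi : i ∈ E
  · exact hx i (Or.inr hi)
  · exact hx i (Or.inl hi)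

end Pool.Agent.Y490.DG
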